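import Pool.Agent.Y58.HT.Stm

/-!
Project HT (helper58), block FIN: finitely generated subgroups of `PGL(2,K)` without fixed point and
without loxodromic elements are finite.
-/

universe u

namespace Pool.Agent.Y657.HT

open Matrix H361P Pool.Agent.Y58.HT
open scoped MatrixGroups LinearAlgebra.Projectivization

theorem toPGL_surj {K : Type u} [Field K] [IsAlgClosed K] :
    Function.Surjective (SpecialLinearGroup.toPGL : SL(2, K) →* PGL(2, K)) := by
  intro g
  have hroot : ∀ r : Kˣ, ∃ k : Kˣ, k ^ Fintype.card (Fin 2) = r := by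
    intro r
    obtain ⟨x, hx⟩ := IsAlgClosed.exists_pow_nat_eq (r : K) (n := Fintype.card (Fin 2)) (by simp)
    have hx0 : x ≠ 0 := by
      intro h
      rw [h, zero_pow (by simp)] at hx
      exact r.ne_zero hx.symm
    exact ⟨Units.mk0 x hx0, Units.ext (by
      rw [Units.val_pow_eq_pow_val, Units.val_mk0, hx])⟩
  obtain ⟨x, hx⟩ := ProjectiveSpecialLinearGroup.toPGL_surj_of_roots hroot g
  obtain ⟨A, rfl⟩ := QuotientGroup.mk_surjective x
  exact ⟨A, hx⟩

theorem ft {K : Type u} [Field K] (E : Set K) (hE : E.Finite) :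
    Algebra.FiniteType ℤ (Subring.closure E) := by
  have hfin : Finite E := hE
  let g : E → Subring.closure E := fun e => ⟨e, Subring.subset_closure e.2⟩
  refine Algebra.FiniteType.of_surjective (MvPolynomial.aeval (R := ℤ) g) ?_
  rintro ⟨x, hx⟩
  have key : ∃ q : MvPolynomial E ℤ,
      ((MvPolynomial.aeval (R := ℤ) g q : Subring.closure E) : K) = x := by
    refine Subring.closure_induction
      (p := fun x _ => ∃ q : MvPolynomial E ℤ,
        ((MvPolynomial.aeval (R := ℤ) g q : Subring.closure E) : K) = x) ?_ ?_ ?_ ?_ ?_ ?_ hx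
    · intro e he
      exact ⟨MvPolynomial.X ⟨e, he⟩, by rw [MvPolynomial.aeval_X]⟩
    · exact ⟨0, by rw [map_zero, Subring.coe_zero]⟩
    · exact ⟨1, by rw [map_one, Subring.coe_one]⟩
    · rintro x y _ _ ⟨a, ha⟩ ⟨b, hb⟩
      exact ⟨a + b, by rw [map_add, Subring.coe_add, ha, hb]⟩
    · rintro x _ ⟨a, ha⟩
      exact ⟨-a, by rw [map_neg, Subring.coe_neg, ha]⟩
    · rintro x y _ _ ⟨a, ha⟩ ⟨b, hb⟩
      exact ⟨a * b, by rw [map_mul, Subring.coe_mul, ha, hb]⟩
  obtain ⟨q, hq⟩ := key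
  exact ⟨q, Subtype.ext hq⟩

/-- `SL_2(R) → GL_2(K)` -/
def jj {K : Type u} [Field K] (R : Subring K) : SL(2, R) →* GL (Fin 2) K :=
  SpecialLinearGroup.toGL.comp (SpecialLinearGroup.map R.subtype)

/-- `SL_2(R) → PGL_2(K)` -/
def ph {K : Type u} [Field K] (R : Subring K) : SL(2, R) →* PGL(2, K) :=
  ProjGenLinGroup.mk.comp (jj R)

theorem jj_apply {K : Type u} [Field K] (R : Subring K) (M : SL(2, R)) (i j : Fin 2) :
    (jj R M).val i j = ((M.1 i j : R) : K) := rfl

theorem jj_inj {K : Type u} [Field K] (R : Subring K) (M : SL(2, R)) (h : jj R M = 1) : M = 1 := by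
  apply Subtype.ext
  ext i j
  have e : (jj R M).val i j = (1 : Matrix (Fin 2) (Fin 2) K) i j := by rw [h]; rfl
  rw [jj_apply] at e
  rw [e]
  show (1 : Matrix (Fin 2) (Fin 2) K) i j = (((1 : Matrix (Fin 2) (Fin 2) R) i j : R) : K)
  by_cases hij : i = j
  · rw [hij, one_apply_eq, one_apply_eq, Subring.coe_one]
  · rw [one_apply_ne hij, one_apply_ne hij, Subring.coe_zero]

theorem jj_det {K : Type u} [Field K] (R : Subring K) (M : SL(2, R)) : (jj R M).val.det = 1 := by
  show (SpecialLinearGroup.map R.subtype M).1.det = 1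
  exact (SpecialLinearGroup.map R.subtype M).2

theorem jj_trace {K : Type u} [Field K] (R : Subring K) (M : SL(2, R)) :
    (jj R M).val.trace = ((M.1.trace : R) : K) := by
  rw [Matrix.trace_fin_two, Matrix.trace_fin_two, Subring.coe_add]
  rfl

theorem core {K : Type u} [Field K] (h1 : S_KOL.{u}) (R : Subring K) (G : Subgroup (PGL(2, K)))
    (hG : G ≤ (ph R).range) (hnf : NoFix G) {Q : Type u} [Group Q] [Finite Q] (ψ : SL(2, R) →* Q)
    (htr : ∀ M : SL(2, R), ph R M ∈ G → ψ M = 1 → (jj R M).val.trace = 2) : Finite G := by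
  have hN : ψ.ker ⊓ G.comap (ph R) = ⊥ := by
    by_contra hne
    have hN' : (ψ.ker ⊓ G.comap (ph R)).map (jj R) ≠ ⊥ := by
      intro h
      apply hne
      rw [eq_bot_iff]
      intro M hM
      have h5 : jj R M ∈ (ψ.ker ⊓ G.comap (ph R)).map (jj R) := Subgroup.mem_map_of_mem _ hM
      rw [h] at h5
      exact Subgroup.mem_bot.2 (jj_inj R M (Subgroup.mem_bot.1 h5))
    obtain ⟨p, hp⟩ := h1 _ (by
      rintro n ⟨M, hM, rfl⟩
      have hM' := Subgroup.mem_inf.1 hM
      exact ⟨htr M (Subgroup.mem_comap.1 hM'.2) (MonoidHom.mem_ker.1 hM'.1), jj_det R M⟩) hN'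
    obtain ⟨m, hm, hmp⟩ := hnf p
    apply hmp
    obtain ⟨M, hM⟩ := hG hm
    have hMG : ph R M ∈ G := by
      rw [hM]
      exact hm
    have hM2 : ProjGenLinGroup.mk (jj R M) = ProjGenLinGroup.mk m := hM
    obtain ⟨c, hc⟩ := ProjGenLinGroup.mk_eq_mk_iff.1 hM2
    rw [← hc, mul_smul, scalar_smul]
    apply hp
    rintro n ⟨B, hB, rfl⟩
    have hB' := Subgroup.mem_inf.1 hB
    refine ⟨M * B * M⁻¹, Subgroup.mem_inf.2 ⟨?_, ?_⟩, ?_⟩
    · rw [MonoidHom.mem_ker, map_mul, map_mul, MonoidHom.mem_ker.1 hB'.1, mul_one, map_inv,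
        mul_inv_cancel]
    · rw [Subgroup.mem_comap, map_mul, map_mul, map_inv]
      exact G.mul_mem (G.mul_mem hMG (Subgroup.mem_comap.1 hB'.2)) (G.inv_mem hMG)
    · rw [map_mul, map_mul, map_inv]
  have hinj : Function.Injective (ψ.comp (G.comap (ph R)).subtype) := by
    rw [injective_iff_map_eq_one]
    intro M hM
    have h5 : (M : SL(2, R)) ∈ ψ.ker ⊓ G.comap (ph R) :=
      Subgroup.mem_inf.2 ⟨MonoidHom.mem_ker.2 hM, M.2⟩
    rw [hN] at h5
    exact Subtype.ext (Subgroup.mem_bot.1 h5)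
  have hfin : Finite (G.comap (ph R)) := Finite.of_injective _ hinj
  have hsurj : Function.Surjective
      (fun M : G.comap (ph R) => (⟨ph R M, Subgroup.mem_comap.1 M.2⟩ : G)) := by
    rintro ⟨g, hg⟩
    obtain ⟨M, hM⟩ := hG hg
    refine ⟨⟨M, Subgroup.mem_comap.2 (by rw [hM]; exact hg)⟩, Subtype.ext hM⟩
  exact Finite.of_surjective _ hsurj

theorem sl_finite (k : Type u) [Field k] [Finite k] : Finite (SL(2, k)) := by
  have : Finite (Matrix (Fin 2) (Fin 2) k) := Pi.finite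
  exact Subtype.finite

theorem tr_map {K : Type u} [Field K] (R : Subring K) {k : Type u} [Field k] (f : R →+* k)
    (M : SL(2, R)) (h : SpecialLinearGroup.map f M = 1) : f M.1.trace = 2 := by
  have e : (SpecialLinearGroup.map (n := Fin 2) f M).1.trace = (1 : Matrix (Fin 2) (Fin 2) k).trace := by
    rw [h]
    rfl
  rw [Matrix.trace_one, Fintype.card_fin] at e
  rw [Matrix.trace_fin_two] at e ⊢
  rw [map_add]
  have e2 : (2 : k) = ((2 : ℕ) : k) := by norm_num
  rw [e2, ← e]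
  rfl

theorem t_fin (h1 : S_KOL.{u}) (h2 : S_RED.{u}) (h3 : S_EIG.{u}) (h4 : S_NL.{u}) : S_FIN.{u} := by
  intro K _ _ S hS hnofix hlox
  obtain ⟨A, hA⟩ := (toPGL_surj (K := K)).hasRightInverse
  obtain ⟨E, hEdef⟩ : ∃ E : Set K, E = ⋃ s ∈ S, ⋃ i : Fin 2, ⋃ j : Fin 2, {(A s).1 i j} := ⟨_, rfl⟩
  have hE : E.Finite := by
    rw [hEdef]
    exact hS.biUnion fun s _ => Set.finite_iUnion fun i => Set.finite_iUnion fun j =>
      Set.finite_singleton _
  have hmem : ∀ s ∈ S, ∀ i j, (A s).1 i j ∈ Subring.closure E := by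
    intro s hs i j
    apply Subring.subset_closure
    rw [hEdef]
    simp only [Set.mem_iUnion]
    exact ⟨s, hs, i, j, rfl⟩
  have hft := ft E hE
  generalize Subring.closure E = R at hmem hft
  have hcl : Subgroup.closure S ≤ (ph R).range := by
    rw [Subgroup.closure_le]
    intro s hs
    have hdet : (Matrix.of fun i j => (⟨(A s).1 i j, hmem s hs i j⟩ : R)).det = 1 := by
      have e := (A s).2
      rw [Matrix.det_fin_two] at e ⊢
      exact Subtype.ext e
    refine ⟨⟨_, hdet⟩, ?_⟩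
    have e1 : SpecialLinearGroup.map (n := Fin 2) R.subtype
        ⟨Matrix.of fun i j => (⟨(A s).1 i j, hmem s hs i j⟩ : R), hdet⟩ = A s := by
      apply Subtype.ext
      ext i j
      rfl
    have e2 : SpecialLinearGroup.toPGL (A s) = s := hA s
    refine Eq.trans ?_ e2
    show ProjGenLinGroup.mk (SpecialLinearGroup.toGL (SpecialLinearGroup.map (n := Fin 2) R.subtype
        ⟨Matrix.of fun i j => (⟨(A s).1 i j, hmem s hs i j⟩ : R), hdet⟩)) = _
    rw [e1]
    rfl
  have hdom : IsDomain R := inferInstance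
  -- the root of unity
  have hz : ∀ M : SL(2, R), ph R M ∈ Subgroup.closure S → ∃ (ζ : K) (n : ℕ), 0 < n ∧ ζ ^ n = 1 ∧
      ζ + ζ⁻¹ = ((M.1.trace : R) : K) := by
    intro M hM
    obtain ⟨ζ, n, hn, hζ, ht⟩ := h4 (jj R M) (jj_det R M) (hlox _ hM)
    exact ⟨ζ, n, hn, hζ, by rw [ht, jj_trace]⟩
  have hend : ∀ (M : SL(2, R)) (ζ : K), ζ + ζ⁻¹ = ((M.1.trace : R) : K) → ζ = 1 →
      (jj R M).val.trace = 2 := by
    intro M ζ h h'
    rw [jj_trace, ← h, h']
    norm_num
  obtain ⟨k1, _, _, f1, hf1⟩ := h2 R 1 one_ne_zero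
  obtain ⟨p1, hp1⟩ := CharP.exists k1
  have hp1p : p1.Prime := (CharP.char_is_prime_or_zero k1 p1).resolve_right
    (CharP.char_ne_zero_of_finite k1 p1)
  have hF1 : Fact p1.Prime := ⟨hp1p⟩
  have hsl1 := sl_finite k1
  obtain ⟨q, hq⟩ := CharP.exists K
  rcases CharP.char_is_prime_or_zero K q with hqp | hq0
  · -- positive characteristic
    have hFq : Fact q.Prime := ⟨hqp⟩
    have hpq : p1 = q := by
      have e : ((q : ℕ) : k1) = 0 := by
        have e1 : ((q : ℕ) : R) = 0 := by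
          apply Subtype.ext
          rw [Subring.coe_natCast, CharP.cast_eq_zero, Subring.coe_zero]
        rw [← map_natCast f1, e1, map_zero]
      have hd := (CharP.cast_eq_zero_iff k1 p1 q).1 e
      exact (Nat.prime_dvd_prime_iff_eq hp1p hqp).1 hd
    subst hpq
    refine core h1 R _ hcl hnofix (SpecialLinearGroup.map (n := Fin 2) f1) ?_
    intro M hM hψ
    obtain ⟨ζ, n, hn, hζ, ht⟩ := hz M hM
    obtain ⟨a, ha⟩ := h3 R f1 p1 M.1.trace ζ n hn hζ ht (tr_map R f1 M hψ)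
    apply hend M ζ ht
    have e : (ζ - 1) ^ p1 ^ a = 0 := by
      rw [sub_pow_char_pow, ha, one_pow, sub_self]
    exact sub_eq_zero.1 (pow_eq_zero_iff (pow_pos hp1p.pos a).ne' |>.1 e)
  · -- characteristic zero
    subst hq0
    have hK0 : CharZero K := CharP.charP_to_charZero K
    have hp0 : ((p1 : ℕ) : R) ≠ 0 := by
      intro h
      have e := congrArg (Subring.subtype R) h
      rw [map_natCast, map_zero] at e
      exact hp1p.ne_zero (by exact_mod_cast e)
    obtain ⟨k2, _, _, f2, hf2⟩ := h2 R ((p1 : ℕ) : R) hp0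
    obtain ⟨p2, hp2⟩ := CharP.exists k2
    have hp2p : p2.Prime := (CharP.char_is_prime_or_zero k2 p2).resolve_right
      (CharP.char_ne_zero_of_finite k2 p2)
    have hF2 : Fact p2.Prime := ⟨hp2p⟩
    have hsl2 := sl_finite k2
    have hne : p1 ≠ p2 := by
      intro h
      apply hf2
      rw [map_natCast, h, CharP.cast_eq_zero]
    refine core h1 R _ hcl hnofix
      ((SpecialLinearGroup.map (n := Fin 2) f1).prod (SpecialLinearGroup.map (n := Fin 2) f2)) ?_
    intro M hM hψ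
    have hψ1 : SpecialLinearGroup.map (n := Fin 2) f1 M = 1 := congrArg Prod.fst hψ
    have hψ2 : SpecialLinearGroup.map (n := Fin 2) f2 M = 1 := congrArg Prod.snd hψ
    obtain ⟨ζ, n, hn, hζ, ht⟩ := hz M hM
    obtain ⟨a, ha⟩ := h3 R f1 p1 M.1.trace ζ n hn hζ ht (tr_map R f1 M hψ1)
    obtain ⟨b, hb⟩ := h3 R f2 p2 M.1.trace ζ n hn hζ ht (tr_map R f2 M hψ2)
    apply hend M ζ ht
    have hcop : Nat.Coprime (p1 ^ a) (p2 ^ b) :=
      Nat.Coprime.pow _ _ ((Nat.coprime_primes hp1p hp2p).2 hne)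
    have hd : orderOf ζ ∣ Nat.gcd (p1 ^ a) (p2 ^ b) :=
      Nat.dvd_gcd (orderOf_dvd_of_pow_eq_one ha) (orderOf_dvd_of_pow_eq_one hb)
    rw [hcop] at hd
    exact orderOf_eq_one_iff.1 (Nat.dvd_one.1 hd)

end Pool.Agent.Y657.HT
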